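import Pool.Agent.Helper64.IG.Goals

/-!
# MP_d01c92_ag: packet SURG (a tree that is not linked can be improved)
-/

namespace Pool.Agent.Helper64.IG.PkSURG

open BT

variable {E : Type} [DecidableEq E]

theorem sub_set {v t : BT E} (h : Sub v t) : v.set ⊆ t.set := by
  induction h with
  | refl => exact subset_rfl
  | left b _ ih => exact ih.trans Finset.subset_union_left
  | right a _ ih => exact ih.trans Finset.subset_union_right

theorem set_nonempty (t : BT E) : t.set.Nonempty := by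
  induction t with
  | leaf e => exact ⟨e, by simp [BT.set]⟩
  | node a b iha _ => exact iha.mono Finset.subset_union_left

theorem nested {u v t : BT E} (ht : t.Disj) (hu : Sub u t) (hv : Sub v t) :
    u.set ⊆ v.set ∨ v.set ⊆ u.set ∨ Disjoint u.set v.set := by
  induction t with
  | leaf e =>
    cases hu
    exact Or.inr (Or.inl (sub_set hv))
  | node a b iha ihb =>
    obtain ⟨h1, h2, h3⟩ := ht
    cases hu with
    | refl => exact Or.inr (Or.inl (sub_set hv))
    | left _ hu' =>
      cases hv with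
      | refl => exact Or.inl ((sub_set hu').trans Finset.subset_union_left)
      | left _ hv' => exact iha h2 hu' hv'
      | right _ hv' =>
        exact Or.inr (Or.inr (Finset.disjoint_of_subset_left (sub_set hu')
          (Finset.disjoint_of_subset_right (sub_set hv') h1)))
    | right _ hu' =>
      cases hv with
      | refl => exact Or.inl ((sub_set hu').trans Finset.subset_union_right)
      | left _ hv' =>
        exact Or.inr (Or.inr (Finset.disjoint_of_subset_left (sub_set hu')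
          (Finset.disjoint_of_subset_right (sub_set hv') h1.symm)))
      | right _ hv' => exact ihb h3 hu' hv'

theorem sub_disj {v t : BT E} (h : Sub v t) (ht : t.Disj) : v.Disj := by
  induction h with
  | refl => exact ht
  | left b _ ih => exact ih ht.2.1
  | right a _ ih => exact ih ht.2.2

theorem sub_wle {lam : Finset E → ℕ} {w : ℕ} {v t : BT E} (h : Sub v t) (ht : t.WLe lam w) :
    v.WLe lam w := by
  induction h with
  | refl => exact ht
  | left b _ ih => exact ih ht.2.1
  | right a _ ih => exact ih ht.2.2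

theorem wle_set {lam : Finset E → ℕ} {w : ℕ} {t : BT E} (ht : t.WLe lam w) : lam t.set ≤ w := by
  cases t with
  | leaf e => exact ht
  | node a b => exact ht.1

theorem replace {lam : Finset E → ℕ} {w μ : ℕ} {e e' t : BT E} (h : Sub e t)
    (hs : e'.set = e.set) (hd : e'.Disj) (hw : e'.WLe lam w)
    (h1 : ∀ k q, μ < k → psi lam k q e' ≤ psi lam k q e)
    (h2 : ∀ q, psi lam (μ + 1) q e' < psi lam (μ + 1) q e) (ht : t.Disj) (htw : t.WLe lam w) :
    ∃ t' : BT E, t'.set = t.set ∧ t'.Disj ∧ t'.WLe lam w ∧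
      (∀ k q, μ < k → psi lam k q t' ≤ psi lam k q t) ∧
      (∀ q, psi lam (μ + 1) q t' < psi lam (μ + 1) q t) := by
  induction h with
  | refl => exact ⟨e', hs, hd, hw, h1, h2⟩
  | @left a b _ ih =>
    obtain ⟨a', i1, i2, i3, i4, i5⟩ := ih ht.2.1 htw.2.1
    refine ⟨BT.node a' b, ?_, ?_, ?_, ?_, ?_⟩
    · show a'.set ∪ b.set = _ ∪ b.set
      rw [i1]
    · refine ⟨?_, i2, ht.2.2⟩
      rw [i1]
      exact ht.1
    · refine ⟨?_, i3, htw.2.2⟩
      rw [i1]
      exact htw.1
    · intro k q hk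
      simp only [psi]
      rw [i1]
      have := i4 k (lam (a.set ∪ b.set)) hk
      omega
    · intro q
      simp only [psi]
      rw [i1]
      have := i5 (lam (a.set ∪ b.set))
      omega
  | @right b a _ ih =>
    obtain ⟨b', i1, i2, i3, i4, i5⟩ := ih ht.2.2 htw.2.2
    refine ⟨BT.node a b', ?_, ?_, ?_, ?_, ?_⟩
    · show a.set ∪ b'.set = a.set ∪ _
      rw [i1]
    · refine ⟨?_, ht.2.1, i2⟩
      rw [i1]
      exact ht.1
    · refine ⟨?_, htw.2.1, i3⟩
      rw [i1]
      exact htw.1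
    · intro k q hk
      simp only [psi]
      rw [i1]
      have := i4 k (lam (a.set ∪ b.set)) hk
      omega
    · intro q
      simp only [psi]
      rw [i1]
      have := i5 (lam (a.set ∪ b.set))
      omega

theorem surg (se : G_SE) : G_SURG := by
  classical
  intro E _ _ lam w t hL hd hw hnl
  unfold Linked at hnl
  push Not at hnl
  obtain ⟨e, f, he, hst, Y0, hY01, hY02, hY03⟩ := hnl
  -- the candidates
  let P : Finset (Finset E) := Finset.univ.filter fun Y => f.set ⊆ Y ∧ Y ⊆ e.set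
  have hP : ∀ Y, Y ∈ P ↔ f.set ⊆ Y ∧ Y ⊆ e.set := fun Y => by simp [P]
  obtain ⟨Y1, hY1, hY1m⟩ := Finset.exists_min_image P lam ⟨Y0, (hP Y0).2 ⟨hY01, hY02⟩⟩
  let sp : Finset E → Finset (Finset E) := fun Y => Finset.univ.filter fun X =>
    (∃ v : BT E, Sub v e ∧ v.set = X) ∧ Disjoint X f.set ∧ (X ∩ Y).Nonempty ∧ (X \ Y).Nonempty
  let P' : Finset (Finset E) := P.filter fun Y => lam Y = lam Y1
  obtain ⟨Y, hY, hYm⟩ := Finset.exists_min_image P' (fun Y => (sp Y).card)
    ⟨Y1, by simp [P', hY1]⟩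
  have hYP : Y ∈ P := (Finset.mem_filter.1 hY).1
  have hYμ : lam Y = lam Y1 := (Finset.mem_filter.1 hY).2
  obtain ⟨hfY, hYe⟩ := (hP Y).1 hYP
  have hmin : ∀ Z, f.set ⊆ Z → Z ⊆ e.set → lam Y ≤ lam Z := fun Z h1 h2 => by
    rw [hYμ]
    exact hY1m Z ((hP Z).2 ⟨h1, h2⟩)
  have hed : e.Disj := sub_disj he hd
  have hew : e.WLe lam w := sub_wle he hw
  have hno : ∀ Y', f.set ⊆ Y' → Y' ⊆ e.set → lam Y' = lam Y → ∀ X ∈ sp Y, X ∉ sp Y' →
      sp Y' ⊆ sp Y → False := by
    intro Y' h1 h2 h3 X hX hX' hss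
    have h4 := hYm Y' (Finset.mem_filter.2 ⟨(hP Y').2 ⟨h1, h2⟩, h3.trans hYμ⟩)
    have h5 : sp Y' ⊂ sp Y := (Finset.ssubset_iff_of_subset hss).2 ⟨X, hX, hX'⟩
    exact absurd (Finset.card_lt_card h5) (not_lt.2 h4)
  have hmsp : ∀ X Z, X ∈ sp Z ↔ (∃ v : BT E, Sub v e ∧ v.set = X) ∧ Disjoint X f.set ∧
      (X ∩ Z).Nonempty ∧ (X \ Z).Nonempty := fun X Z => by simp [sp]
  have hkey : ∀ v, Sub v e → Disjoint v.set f.set → (v.set ∩ Y).Nonempty →
      (v.set \ Y).Nonempty → lam (v.set ∩ Y) < lam v.set ∧ lam (v.set \ Y) < lam v.set := by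
    intro v hv hvf hv1 hv2
    have hve := sub_set hv
    have hvsp : v.set ∈ sp Y := (hmsp _ _).2 ⟨⟨v, hv, rfl⟩, hvf, hv1, hv2⟩
    constructor
    · by_contra hc
      have h1 := hL.submod v.set Y
      have hf' : f.set ⊆ v.set ∪ Y := hfY.trans Finset.subset_union_right
      have he' : v.set ∪ Y ⊆ e.set := Finset.union_subset hve hYe
      have h2 := hmin (v.set ∪ Y) hf' he'
      refine hno (v.set ∪ Y) hf' he' (by omega) v.set hvsp ?_ ?_
      · intro h
        obtain ⟨_, _, _, h3⟩ := (hmsp _ _).1 h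
        obtain ⟨x, hx⟩ := h3
        simp only [Finset.mem_sdiff, Finset.mem_union] at hx
        exact hx.2 (Or.inl hx.1)
      · intro X hX
        obtain ⟨⟨u, hu, rfl⟩, h3, h4, h5⟩ := (hmsp _ _).1 hX
        refine (hmsp _ _).2 ⟨⟨u, hu, rfl⟩, h3, ?_, ?_⟩
        · rcases nested hed hu hv with h6 | h6 | h6
          · obtain ⟨x, hx⟩ := h5
            simp only [Finset.mem_sdiff, Finset.mem_union] at hx
            exact absurd (Or.inl (h6 hx.1)) hx.2
          · exact hv1.mono (Finset.inter_subset_inter h6 subset_rfl)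
          · obtain ⟨x, hx⟩ := h4
            simp only [Finset.mem_inter, Finset.mem_union] at hx
            refine ⟨x, Finset.mem_inter.2 ⟨hx.1, hx.2.resolve_left fun h7 => ?_⟩⟩
            exact Finset.disjoint_left.1 h6 hx.1 h7
        · obtain ⟨x, hx⟩ := h5
          simp only [Finset.mem_sdiff, Finset.mem_union, not_or] at hx
          exact ⟨x, Finset.mem_sdiff.2 ⟨hx.1, hx.2.2⟩⟩
    · by_contra hc
      have h1 := hL.submod v.setᶜ Y
      rw [hL.symm v.set] at h1
      have e1 : v.setᶜ ∩ Y = Y \ v.set := by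
        ext x; simp only [Finset.mem_inter, Finset.mem_compl, Finset.mem_sdiff]; tauto
      have e2 : v.setᶜ ∪ Y = (v.set \ Y)ᶜ := by
        ext x; simp only [Finset.mem_union, Finset.mem_compl, Finset.mem_sdiff]; tauto
      rw [e1, e2, hL.symm] at h1
      have hf' : f.set ⊆ Y \ v.set := fun x hx => Finset.mem_sdiff.2 ⟨hfY hx, fun h =>
        Finset.disjoint_left.1 hvf h hx⟩
      have he' : Y \ v.set ⊆ e.set := Finset.sdiff_subset.trans hYe
      have h2 := hmin (Y \ v.set) hf' he'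
      refine hno (Y \ v.set) hf' he' (by omega) v.set hvsp ?_ ?_
      · intro h
        obtain ⟨_, _, h3, _⟩ := (hmsp _ _).1 h
        obtain ⟨x, hx⟩ := h3
        simp only [Finset.mem_sdiff, Finset.mem_inter] at hx
        exact hx.2.2 hx.1
      · intro X hX
        obtain ⟨⟨u, hu, rfl⟩, h3, h4, h5⟩ := (hmsp _ _).1 hX
        refine (hmsp _ _).2 ⟨⟨u, hu, rfl⟩, h3, ?_, ?_⟩
        · obtain ⟨x, hx⟩ := h4
          simp only [Finset.mem_sdiff, Finset.mem_inter] at hx
          exact ⟨x, Finset.mem_inter.2 ⟨hx.1, hx.2.1⟩⟩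
        · rcases nested hed hu hv with h6 | h6 | h6
          · obtain ⟨x, hx⟩ := h4
            simp only [Finset.mem_sdiff, Finset.mem_inter] at hx
            exact absurd (h6 hx.1) hx.2.2
          · exact hv2.mono (Finset.sdiff_subset_sdiff h6 subset_rfl)
          · obtain ⟨x, hx⟩ := h5
            simp only [Finset.mem_sdiff, not_and, not_not] at hx
            refine ⟨x, Finset.mem_sdiff.2 ⟨hx.1, fun h7 => ?_⟩⟩
            exact Finset.disjoint_left.1 h6 hx.1 (hx.2 h7)
  have hlt : lam Y < lam e.set := (hmin Y0 hY01 hY02).trans_lt hY03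
  obtain ⟨e', j1, j2, j3, j4, j5⟩ := se E lam w (lam Y) e f Y hL hed hew hst hfY hYe rfl hlt
    hmin hkey
  obtain ⟨t', k1, k2, k3, k4, k5⟩ := replace he j1 j2 j3 j4 j5 hd hw
  exact ⟨t', lam Y, k1, k2, k3, hlt.trans_le (wle_set hew), fun k hk => k4 k 0 hk, k5 0⟩

end Pool.Agent.Helper64.IG.PkSURG
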